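import Pool.Agent.Run7.h798.Tate.ES

/-!
# MP_e1ffa3_nt, Q1: the Eichler–Shimura conjecture and singular cubic hypersurfaces over `ℚ`

`D` is the `l`-adic cohomology of the schemes over number fields with the action of the Galois groups: for a
proper smooth scheme `X` over `K` the representation `H K i X` is `H^i(X̄, E)`, and for a scheme `X` over `ℚ`
the representation `h i j X` is `Gr^W_{i-2j} N_j H_{2j-i}(X̄, E)(-j)`, the part of lowest weight of the classes
supported in dimension at most `j`.
-/

set_option autoImplicit false

open CategoryTheory AlgebraicGeometry Pool.Agent.Y116.UV Pool.Agent.Q193.LT Pool.Agent.Q282.UK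
  Pool.Agent.Q282.UZ Run7.h798.UV Run7.h798.Tate Run7.h798.Tate.Gal Run7.h798.Tate.Eff Run7.h798.Tate.ES

namespace Pool.Agent.Results.MP_e1ffa3_nt.CubicHypersurfaces

/-- **Theorem.** Let `N` be a natural number. A Hilbert newform `f` over `F` of parallel weight two has an
associated abelian variety if and only if its Galois representation is a subquotient of the restriction to
`Gal(F̄/F)` of `Gr^W_{1-2j} N_j H_{2j-1}(C̄, E)(-j)`, `j ≥ N`, for a singular cubic hypersurface
`C : ∑_l z_l f_l(x, y) = 0` over `ℚ`, where every `f_l` is a sum of at most three monomials `x_i y_j`. So the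
Eichler–Shimura conjecture is true if and only if the representations of the newforms in question all occur in
these cubic hypersurfaces over `ℚ`. -/
theorem result {E : Type} [Field E] {D : Eff.Theory E} (A : Newforms D) (N : ℕ) :
    (EichlerShimura A ↔ EichlerShimuraCubic A N) ∧
      ∀ (F : Type) [Field F] [NumberField F] (f : A.Form F),
        A.attached F f ↔ D.Cubic N F 1 (A.rho F f) :=
  ⟨es_iff A N, fun F _ _ f => attached_iff A N F f⟩

end Pool.Agent.Results.MP_e1ffa3_nt.CubicHypersurfaces
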