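import Pool.Agent.Run7.h615.ES.Main

/-!
# The Eichler-Shimura conjecture for Galois invariant newforms, and a reduction

Let `f` be a Hilbert newform of parallel weight 2 over the totally real field `F`, and `ρ_f` its
`ℓ`-adic representation. Call `f`, `g` (over possibly different fields) virtually isomorphic if `ρ_f` and
`ρ_g` are isomorphic over some number field; e.g. twists by characters of finite order and base changes
are virtually isomorphic. Let `Inv(f)` be the group of all `σ` in `Gal(ℚ̄/ℚ)` such that the conjugate
of `f` by `σ` is virtually isomorphic to `f`.

* (1) `f` has an associated abelian variety if and only if for some number field `K` containing `F` a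
  twist of `ρ_f|K` by a character of finite order occurs in an abelian variety over `K`. So this
  depends only on the class of `f` for virtual isomorphism and conjugation.
* (2) If `Inv(f) = Gal(ℚ̄/ℚ)` then `f` has an associated abelian variety. More generally this is so if
  `Inv(f)` contains `Gal(ℚ̄/F₁)`, where `F₁` has odd degree over `ℚ`, and `f` is virtually isomorphic to
  a newform over a solvable Galois extension of `F₁`.
* (3) Let `T` be a set of totally real fields which contains solvable extensions, as large as one
  wants, of every totally real field (e.g. the fields which contain `√d`, `d > 0` given, or those of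
  degree divisible by `n`). The Eichler-Shimura conjecture is equivalent to the case of newforms `f` of
  level `(1)` over fields in `T` such that every newform `g` (any field, level, character) with a conjugate
  virtually isomorphic to `f` has a field of even degree, no complex multiplication and is a principal series
  at all finite places. It is enough to treat one newform from each class.

Proof of (2). Let `R = ρ_f`, without complex multiplication. For `σ` in `G = Gal(ℚ̄/F₁)` there is a
matrix `P(σ)` with `R(σ x σ⁻¹) = P(σ) R(x) P(σ)⁻¹` for `x` in an open subgroup which depends on `σ`. Since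
the restriction of `R` to every open subgroup has only scalar endomorphisms, `P(σ)` is unique up to
scalars, `P(στ) = P(σ) P(τ)` up to scalars, and `P(x) = R(x)` up to scalars for `x` in `Gal(ℚ̄/F)`. So `P`
is a projective representation of `G` extending that of `R`; by Tate it lifts to a representation of `G`
which is isomorphic to `R` on an open subgroup, and this is modular by Serre's modularity conjecture and
modularity lifting, or by solvable descent. One obtains a newform `g` over a field of odd degree which is
virtually isomorphic to `f`. By (1) the abelian variety for `g` gives one for `f`.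

The known facts are the fields of `Run7.h615.ES.Known`.
-/

set_option autoImplicit false

namespace Pool.Agent.Results.MP_e1ffa3_nt.GaloisInvariantForms

open Run7.h615.ES

/-- The Eichler-Shimura conjecture: newforms with trivial character over totally real fields of even
degree, whose level is divisible exactly by no prime. `Exact f` means that some prime divides the
level of `f` exactly. -/
def Conjecture {Γ E : Type} [Group Γ] [Field E] (D : Newforms Γ E) (Exact : D.Form → Prop) : Prop :=
  ∀ f, D.TrivChar f → Even (D.fld f).index → ¬ Exact f → D.HasAV f

/-- (1) -/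
def DependsOnClass {Γ E : Type} [Group Γ] [Field E] (O : Opens Γ) (D : Newforms Γ E) : Prop :=
  (∀ f, D.HasAV f ↔ ∃ K ∈ O.Op, K ≤ D.fld f ∧ ∃ χ, IsChar O K χ ∧
      ∃ B : D.AV K, D.Occ K (tw χ (D.rho f)) B) ∧
    ∀ f g σ, D.VirtConj O σ g f → (D.HasAV f ↔ D.HasAV g)

/-- (2) -/
def InvariantForms {Γ E : Type} [Group Γ] [Field E] (O : Opens Γ) (D : Newforms Γ E) : Prop :=
  (∀ f, (∀ σ, D.VirtConj O σ f f) → D.HasAV f) ∧
    ∀ f, ∀ G ∈ O.Op, Odd G.index → (∀ σ ∈ G, D.VirtConj O σ f f) →
      (∃ g, D.Virt O f g ∧ SolvOver (D.fld g) G) → D.HasAV f

/-- (3) -/
def Reduction {Γ E : Type} [Group Γ] [Field E] (O : Opens Γ) (D : Newforms Γ E)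
    (Exact : D.Form → Prop) : Prop :=
  ∀ T, Cofinal O D T →
    (Conjecture D Exact ↔
      ∀ f, D.TrivChar f → D.LevelOne f → D.fld f ∈ T → Remote O D f → D.HasAV f) ∧
    ∀ S : Set D.Form,
      (∀ f, D.TrivChar f → D.LevelOne f → D.fld f ∈ T → Remote O D f →
        ∃ s ∈ S, ∃ σ, D.VirtConj O σ s f) →
      (∀ s ∈ S, D.HasAV s) → Conjecture D Exact

/-- Newforms which are virtually invariant under `Gal(ℚ̄/ℚ)`, or over a field of odd degree, have
associated abelian varieties; reduction of the conjecture. -/
theorem result : ∀ (Γ E : Type) [Group Γ] [Field E] (O : Opens Γ) (D : Newforms Γ E), Known O D →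
    ∀ Exact : D.Form → Prop, (∀ f, D.LevelOne f → ¬ Exact f) →
      DependsOnClass O D ∧ InvariantForms O D ∧ Reduction O D Exact := by
  intro Γ E _ _ O D h Exact hE
  obtain ⟨h1, h2, h3, h4, h5, h6⟩ := main h (fun f => ¬ Exact f) hE
  exact ⟨⟨h1, h2⟩, ⟨h3, h4⟩, fun T hT => ⟨h5 T hT, fun S hS hyp f hf _ _ => h6 T hT S hS hyp f hf⟩⟩

end Pool.Agent.Results.MP_e1ffa3_nt.GaloisInvariantForms
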