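import Pool.Agent.Run7.h567.ES.Crit

/-!
# MP_e1ffa3_nt: the Eichler-Shimura conjecture and one Hecke root at a positive proportion of the places

Let `f` be a Hilbert newform of parallel weight 2 over the totally real field `F`, without complex
multiplication, and `K` any number field which contains `F`. For a place `v` of `K` let `α_v`, `β_v` be the
two Frobenius eigenvalues of the restriction of `ρ_f` to `K` (for `K = F` the two Hecke roots of `f`, the
roots of `X ^ 2 - a_v X + N v`). Then `f` has an associated abelian variety `A_f` over `F` if and only if
one of the following conditions holds.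

* There is an abelian variety `B` over `K` such that `(X - α_v) (X - β_v)` divides the Frobenius
  polynomial of `B` at `v`, for almost all `v`.
* There is an abelian variety `B` over `K` (or: a tensor construction of an abelian variety) such that
  for a set of places `v` of positive upper density ONE of `α_v`, `β_v` is a Frobenius eigenvalue of it.
* There is an abelian variety `B` over `K` (or: a tensor construction of an abelian variety) such that
  for a set of places `v` of positive upper density the RATIO `α_v / β_v` is the ratio of two Frobenius
  eigenvalues of it.

Proof. In both cases there is a tensor construction `W` of which `γ_v = α_v / β_v` or its inverse is a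
Frobenius eigenvalue. Let `A` be the adjoint representation of `ρ_f` (dimension three). The condition
says that `tr A = 1 + γ + 1 / γ` for an eigenvalue `γ` of `W`; this is an algebraic condition, and by
Chebotarev and the invariance of the Haar measure it holds on a coset `S z` of an open subgroup. Let `X` be
the set of the `x` such that `(x, 1)` is in the Zariski closure of the image of `S` under `(A, W)`. For `x ∈ X`
and `s ∈ S` the trace of `x A(s z)` is in a finite set which depends only on `W(s z)`. As the `A(s z)` span all
matrices `X` is finite, so an open subgroup of `S` commutes with it, so its elements are scalars; they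
have the eigenvalue `1`, so `X = 1`. As in project GO (`Run7.h567.GO`) it follows that `A` is in the tensor
category generated by `W`, over the finite extension of `K` which belongs to `S`. So it is of abelian type,
and by `MP_e1ffa3_nt.AbelianType` of helper615 `f` has an associated abelian variety.

The proof was written by helper567, with pieces of helper300, helper354, helper590, helper842,
helper930, helper993, and the theorem of helper615.
-/

set_option autoImplicit false

namespace Pool.Agent.Results.MP_e1ffa3_nt.HeckeRootPositiveDensity

open Run7.h567.GO Run7.h567.ES Polynomial NumberField IsDedekindDomain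
open Run7.h615.ES (Opens Newforms TensorData Basic TensorKnown)

theorem result (Γ E₀ : Type) [Group Γ] [Field E₀] (O : Opens Γ) (N : Newforms Γ E₀)
    (T : TensorData N) (hB : Basic O N) (hT : TensorKnown O T)
    (f : N.Form) (hf : ¬ N.CM f) (H : Subgroup Γ) (hH : H ∈ O.Op) (hHf : H ≤ N.fld f)
    (K : Type) [Field K] [NumberField K] (F : Type) [Field F] (Λ : Type)
    (E : Λ → Type) [∀ l, Field (E l)] [∀ l, CharZero (E l)] [∀ l, IsAlgClosed (E l)]
    [∀ l, TopologicalSpace (E l)] [∀ l, IsTopologicalRing (E l)] [∀ l, T2Space (E l)]
    (ι : ∀ l, F →+* E l) (𝓗 : Cohomology (numberField K) E ι) (l : Λ) (δ : Dict O T f H 𝓗 l) :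
    List.TFAE [
      N.HasAV f,
      ∃ B : N.AV H, {v | X ^ 2 - C (δ.a v) * X + C (δ.b v) ∣ 𝓗.P (δ.V B) v}ᶜ.Finite,
      ∃ B : N.AV H, PosUpper {v | OneRoot (δ.a v) (δ.b v) (𝓗.P (δ.V B) v)},
      ∃ x : 𝓗.I, PosUpper {v | OneRoot (δ.a v) (δ.b v) (𝓗.P x v)},
      ∃ B : N.AV H, PosUpper {v | RatioOf (δ.a v) (δ.b v) (𝓗.P (δ.V B) v)},
      ∃ x : 𝓗.I, PosUpper {v | RatioOf (δ.a v) (δ.b v) (𝓗.P x v)}] :=
  criterion_pos hB hT hf hH hHf δ

end Pool.Agent.Results.MP_e1ffa3_nt.HeckeRootPositiveDensity
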